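import Pool.Agent.H95.CF.T3

/-!
# CHD: the recursion for the divisor sums (MP_347b49_nt)
-/

set_option autoImplicit false

open NumberField Module MeasureTheory Set Filter Pool.Agent.H31.CN Pool.Agent.H65.CF
  Pool.Agent.H95.CF
open scoped nonZeroDivisors Real

namespace Pool.Agent.H18.CF

theorem chm_prime {p : ℕ} (hp : p.Prime) (D : ℕ) : chm p D = ((ch p D : ℤ) : ℝ) := by
  unfold chm
  rw [hp.primeFactors, Finset.prod_singleton, hp.factorization_self, pow_one]

/-- the divisors of `p * n` which are prime to `p` -/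
theorem div_np {p n : ℕ} (hp : p.Prime) (hn : n ≠ 0) :
    (p * n).divisors.filter (fun d => ¬ p ∣ d) = n.divisors.filter (fun d => ¬ p ∣ d) := by
  ext d
  rw [Finset.mem_filter, Finset.mem_filter, Nat.mem_divisors, Nat.mem_divisors]
  constructor
  · rintro ⟨⟨h1, -⟩, h2⟩
    exact ⟨⟨(((Nat.Prime.coprime_iff_not_dvd hp).2 h2).symm).dvd_of_dvd_mul_left h1, hn⟩, h2⟩
  · rintro ⟨⟨h1, -⟩, h2⟩
    exact ⟨⟨h1.mul_left p, mul_ne_zero hp.ne_zero hn⟩, h2⟩

/-- the divisors of `p * n` which are divisible by `p` -/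
theorem div_p {p n : ℕ} (hp : p.Prime) (hn : n ≠ 0) :
    (p * n).divisors.filter (fun d => p ∣ d) = n.divisors.image (fun d => p * d) := by
  ext d
  rw [Finset.mem_filter, Finset.mem_image, Nat.mem_divisors]
  constructor
  · rintro ⟨⟨h1, -⟩, e, rfl⟩
    exact ⟨e, Nat.mem_divisors.2 ⟨Nat.dvd_of_mul_dvd_mul_left hp.pos h1, hn⟩, rfl⟩
  · rintro ⟨e, he, rfl⟩
    rw [Nat.mem_divisors] at he
    exact ⟨⟨Nat.mul_dvd_mul_left p he.1, mul_ne_zero hp.ne_zero hn⟩, Dvd.intro e rfl⟩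

theorem aD_mul (hCHM : T_CHM) {p n : ℕ} (hp : p.Prime) (hn : n ≠ 0) (D : ℕ) :
    aD (p * n) D = ((ch p D : ℤ) : ℝ) * aD n D +
      ∑ d ∈ n.divisors.filter (fun d => ¬ p ∣ d), chm d D := by
  unfold aD
  rw [← Finset.sum_filter_add_sum_filter_not (p * n).divisors (fun d => p ∣ d), div_np hp hn,
    div_p hp hn, Finset.sum_image fun x _ y _ h => Nat.eq_of_mul_eq_mul_left hp.pos h,
    Finset.mul_sum]
  congr 1
  refine Finset.sum_congr rfl fun d hd => ?_
  rw [hCHM.2.2.1 p d D hp.ne_zero (Nat.pos_of_mem_divisors hd).ne', chm_prime hp]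

theorem pf_CHD (hCHM : T_CHM) : T_CHD := by
  intro D p n hp hn
  have hn0 : n ≠ 0 := by omega
  rw [aD_mul hCHM hp hn0 D]
  by_cases h : p ∣ n
  · obtain ⟨m, rfl⟩ := h
    have hm : m ≠ 0 := fun h => hn0 (by rw [h, mul_zero])
    rw [if_pos (Dvd.intro m rfl), Nat.mul_div_cancel_left m hp.pos, div_np hp hm]
    have h1 := aD_mul hCHM hp hm D
    linear_combination (-1) * h1
  · rw [if_neg h]
    have h1 : n.divisors.filter (fun d => ¬ p ∣ d) = n.divisors := by
      refine Finset.filter_true_of_mem fun d hd h2 => h (h2.trans (Nat.dvd_of_mem_divisors hd))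
    rw [h1]
    unfold aD
    ring

end Pool.Agent.H18.CF
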